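import Pool.Agent.Helper53.WR.Params

set_option autoImplicit false

namespace Pool.Agent.Helper40.WR

open Finset Filter
open Pool.Agent.Helper53.WR

/-- Monotonicity of `HasExp` in both exponents. -/
lemma hasExp_mono {β γ β' γ' : ℝ} (hβ : β ≤ β') (hγ : γ ≤ γ') (h : HasExp β γ) :
    HasExp β' γ' := by
  have key : ∀ (C e e' : ℝ) (l : ℕ) (v : ℝ), e ≤ e' → 1 ≤ l → v ≤ C * (l : ℝ) ^ e →
      v ≤ |C| * (l : ℝ) ^ e' := by
    intro C e e' l v hee hl hv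
    have hl' : (1 : ℝ) ≤ l := by exact_mod_cast hl
    have h1 : (l : ℝ) ^ e ≤ (l : ℝ) ^ e' := Real.rpow_le_rpow_of_exponent_le hl' hee
    have h2 : 0 ≤ (l : ℝ) ^ e := Real.rpow_nonneg (by linarith) _
    calc v ≤ C * (l : ℝ) ^ e := hv
      _ ≤ |C| * (l : ℝ) ^ e := mul_le_mul_of_nonneg_right (le_abs_self C) h2
      _ ≤ |C| * (l : ℝ) ^ e' := mul_le_mul_of_nonneg_left h1 (abs_nonneg C)
  obtain ⟨A, ⟨C, hC⟩, D, hD⟩ := h
  exact ⟨A, ⟨|C|, fun l hl n hn => key C β β' l _ hβ hl (hC l hl n hn)⟩,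
    |D|, fun J hJ => key D γ γ' J _ hγ hJ (hD J hJ)⟩

/-- WR-E7 (iteration of the step). -/
theorem iterate_step (hbase : HasExp 1 0)
    (hstep : ∀ (M G : ℕ), 3 ≤ M → 1 ≤ G → G + 2 ≤ M → ∀ β γ : ℝ, 0 ≤ β → 0 ≤ γ → HasExp β γ →
      HasExp (max ((1 - 1 / (M : ℝ)) * β) (((M : ℝ) - G + 2) / M))
        (max (((G : ℝ) + 1) / M) ((1 + ((M : ℝ) - 1) * γ) / M)))
    (ρ ε : ℝ) (hρ0 : 0 < ρ) (hρ1 : ρ < 1) (hε : 0 < ε) : HasExp (ρ + ε) (1 - ρ + ε) := by
  -- choice of `M`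
  obtain ⟨M0, hM0⟩ := exists_nat_gt (max (3 / ε) (3 / ρ))
  obtain ⟨M, hM3, hMM⟩ : ∃ M : ℕ, 3 ≤ M ∧ M0 ≤ M := ⟨max 3 M0, le_max_left _ _, le_max_right _ _⟩
  have hMR : (3 : ℝ) ≤ M := by exact_mod_cast hM3
  have hMpos : (0 : ℝ) < M := by linarith
  have hMM' : (M0 : ℝ) ≤ M := by exact_mod_cast hMM
  have hMε : 3 / ε < M := lt_of_le_of_lt (le_max_left _ _) (lt_of_lt_of_le hM0 hMM')
  have hMρ : 3 / ρ < M := lt_of_le_of_lt (le_max_right _ _) (lt_of_lt_of_le hM0 hMM')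
  obtain ⟨δ, hδ⟩ : ∃ δ : ℝ, δ = 1 / (M : ℝ) := ⟨_, rfl⟩
  have hδM : δ * M = 1 := by rw [hδ]; field_simp
  have hδ0 : 0 < δ := by rw [hδ]; positivity
  have hδ1 : δ < 1 := by nlinarith
  have hδε : 3 * δ < ε := by
    rw [div_lt_iff₀ hε] at hMε
    nlinarith
  have hδρ : 3 * δ < ρ := by
    rw [div_lt_iff₀ hρ0] at hMρ
    nlinarith
  -- the iteration
  have iter : ∀ s : ℕ, 2 * δ ≤ (1 - δ) ^ s →
      HasExp ((1 - δ) ^ s + 2 * δ) (1 - (1 - δ) ^ s + 2 * δ) := by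
    intro s
    induction s with
    | zero =>
      intro _
      refine hasExp_mono ?_ ?_ hbase
      · simp only [pow_zero]; linarith
      · simp only [pow_zero]; linarith
    | succ s ih =>
      intro hs
      obtain ⟨r, hr⟩ : ∃ r : ℝ, r = (1 - δ) ^ s := ⟨_, rfl⟩
      have hr0 : 0 < r := by rw [hr]; exact pow_pos (by linarith) _
      have hr1 : r ≤ 1 := by rw [hr]; exact pow_le_one₀ (by linarith) (by linarith)
      have hsucc : (1 - δ) ^ (s + 1) = r * (1 - δ) := by rw [hr, pow_succ]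
      rw [hsucc] at hs ⊢
      have hs' : 2 * δ ≤ (1 - δ) ^ s := by
        rw [← hr]; nlinarith
      have h1 := ih hs'
      rw [← hr] at h1
      obtain ⟨G, hG⟩ : ∃ G : ℕ, G = ⌈(M : ℝ) * (1 - r * (1 - δ))⌉₊ := ⟨_, rfl⟩
      have hx0 : 1 ≤ (M : ℝ) * (1 - r * (1 - δ)) := by
        have : δ ≤ 1 - r * (1 - δ) := by nlinarith
        calc (1 : ℝ) = M * δ := by linarith [hδM, mul_comm (M : ℝ) δ]
          _ ≤ M * (1 - r * (1 - δ)) := mul_le_mul_of_nonneg_left this hMpos.le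
      have hGle : (M : ℝ) * (1 - r * (1 - δ)) ≤ G := by rw [hG]; exact Nat.le_ceil _
      have hGlt : (G : ℝ) < (M : ℝ) * (1 - r * (1 - δ)) + 1 := by
        rw [hG]; exact Nat.ceil_lt_add_one (by linarith)
      have hG1 : 1 ≤ G := by
        have : (0 : ℝ) < G := by linarith
        exact_mod_cast this
      have hG2 : G + 2 ≤ M := by
        have h2 : (M : ℝ) * (r * (1 - δ)) ≥ 2 := by
          have := mul_le_mul_of_nonneg_left hs hMpos.le
          nlinarith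
        have h3 : (G : ℝ) + 2 < M + 1 := by nlinarith
        have h4 : G + 2 < M + 1 := by exact_mod_cast h3
        omega
      have h2 := hstep M G hM3 hG1 hG2 (r + 2 * δ) (1 - r + 2 * δ) (by linarith) (by linarith) h1
      refine hasExp_mono ?_ ?_ h2
      · refine max_le ?_ ?_
        · rw [← hδ]; nlinarith
        · rw [div_le_iff₀ hMpos]
          nlinarith
      · refine max_le ?_ ?_
        · rw [div_le_iff₀ hMpos]
          nlinarith
        · rw [div_le_iff₀ hMpos]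
          have e1 : (1 - r * (1 - δ) + 2 * δ) * M = M - r * (M - δ * M) + 2 * (δ * M) := by ring
          rw [e1, hδM]
          have e2 : 1 + ((M : ℝ) - 1) * (1 - r + 2 * δ)
              = 1 + (M - 1) * (1 - r) + 2 * (δ * M) - 2 * δ := by ring
          rw [e2, hδM]
          nlinarith
  -- the smallest `s` with `(1 - δ) ^ s ≤ ρ`
  have hex : ∃ s : ℕ, (1 - δ) ^ s ≤ ρ := by
    obtain ⟨n, hn⟩ := exists_pow_lt_of_lt_one hρ0 (show 1 - δ < 1 by linarith)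
    exact ⟨n, hn.le⟩
  classical
  obtain ⟨s, hs⟩ : ∃ s, s = Nat.find hex := ⟨_, rfl⟩
  have hs1 : (1 - δ) ^ s ≤ ρ := by rw [hs]; exact Nat.find_spec hex
  have hs0 : s ≠ 0 := by
    rintro rfl
    simp only [pow_zero] at hs1
    linarith
  obtain ⟨t, rfl⟩ : ∃ t, s = t + 1 := ⟨s - 1, by omega⟩
  have hs2 : ρ < (1 - δ) ^ t := by
    have : ¬ (1 - δ) ^ t ≤ ρ := Nat.find_min hex (by omega)
    exact not_le.mp this
  have hs3 : ρ - δ ≤ (1 - δ) ^ (t + 1) := by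
    rw [pow_succ]
    nlinarith
  refine hasExp_mono ?_ ?_ (iter (t + 1) (by linarith))
  · linarith
  · linarith

end Pool.Agent.Helper40.WR
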